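import Pool.Agent.MP_c69980_ag.H62.GoodA

/-!
Row 3: rational functions along the discs have bounded spherical mass and small Poincare mass.
-/

set_option autoImplicit false

noncomputable section

namespace Pool.Agent.MP_c69980_ag.H4.H62

open MvPolynomial Metric Filter Topology MeasureTheory Set Real
open scoped ContDiff ENNReal ComplexConjugate
open H60 (PR)

lemma hom_bd {n d : ℕ} {P : PR n} (hP : P.IsHomogeneous d) :
    ∃ A : ℝ, 0 < A ∧ ∀ y : Fin n → ℂ, y ≠ 0 → ‖eval y P‖ ≤ A * ‖y‖ ^ d := by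
  obtain ⟨A, hA⟩ := (isCompact_closedBall (0 : Fin n → ℂ) 1).exists_bound_of_continuousOn
    (MvPolynomial.continuous_eval P).continuousOn
  refine ⟨max A 1, by positivity, fun y hy => ?_⟩
  have h0 : 0 < ‖y‖ := norm_pos_iff.2 hy
  have h1 : y = (‖y‖ : ℂ) • ((‖y‖ : ℂ)⁻¹ • y) := by
    rw [smul_smul, mul_inv_cancel₀ (by exact_mod_cast h0.ne'), one_smul]
  have h2 := hA ((‖y‖ : ℂ)⁻¹ • y) (by
    rw [mem_closedBall_zero_iff, norm_smul, norm_inv, Complex.norm_real, norm_norm,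
      inv_mul_cancel₀ h0.ne'])
  have h3 := H60.eval_smul_hom hP (‖y‖ : ℂ) ((‖y‖ : ℂ)⁻¹ • y)
  rw [← h1] at h3
  rw [h3, norm_mul, norm_pow, Complex.norm_real, norm_norm, mul_comm]
  exact mul_le_mul_of_nonneg_right (h2.trans (le_max_left _ _)) (by positivity)

lemma ev_diff {n : ℕ} {F : ℂ → Fin n → ℂ} {O : Set ℂ} (hF : DifferentiableOn ℂ F O) (P : PR n) :
    DifferentiableOn ℂ (fun z => eval (F z) P) O := fun z hz =>
  (AnalyticOnNhd.eval_mvPolynomial P (F z) trivial).differentiableAt.comp_differentiableWithinAt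
    z (hF z hz)

lemma ae_ne {h : ℂ → ℂ} (hh : DifferentiableOn ℂ h (ball 0 1)) (h0 : h 0 ≠ 0) :
    ∀ᵐ z, z ∈ ball (0 : ℂ) 1 → h z ≠ 0 := by
  rw [← ae_restrict_iff' measurableSet_ball]
  refine ae_restrict_le_codiscreteWithin measurableSet_ball ?_
  exact ((hh.analyticOnNhd isOpen_ball).eqOn_zero_or_eventually_ne_zero_of_preconnected
    (convex_ball 0 1).isPreconnected).resolve_left fun a => h0 (a (mem_ball_self one_pos))

lemma disc (hM : MinorStmt) (hLi : LiftStmt) (hC : CompStmt) {n d : ℕ} {P Q : PR n} {a : ℝ}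
    (hP : P.IsHomogeneous d) (hQ : Q.IsHomogeneous d) (ha : 0 < a) :
    ∃ K a' : ℝ, 1 ≤ K ∧ ∀ (F : ℂ → Fin n → ℂ) (B : Set ℂ) (g : ℂ → ℝ) (ρ : ℂ → ℂ) (c₀ : ℝ),
      Crv (ball 0 1) F → TF c₀ (ball 0 (1 / 2)) B g → 0 ∈ B →
      (∀ z ∈ B, a * ‖F z‖ ^ d ≤ ‖eval (F z) P‖ ∧ a * ‖F z‖ ^ d ≤ ‖eval (F z) Q‖) →
      (∀ z ∈ ball (0 : ℂ) (1 / 2), ρ =ᶠ[𝓝[≠] z] fun w => eval (F w) P / eval (F w) Q) →
      ∃ Ψ : ℂ → Fin 2 → ℂ, Crv (ball 0 (1 / 2)) Ψ ∧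
        (∀ z ∈ ball (0 : ℂ) (1 / 2), z ∈ B → sq (Ψ z) ≤ K * ‖Ψ z 0‖ ^ 2) ∧
        ∫ z, lam Ψ z * g z ≤ d * (∫ z, lam F z * g z) + a' * c₀ ∧
        ∀ᵐ z, z ∈ ball (0 : ℂ) (1 / 2) → AnalyticAt ℂ ρ z →
          ∀ᶠ w in 𝓝 z, Ψ w 1 ≠ 0 ∧ Ψ w 0 = ρ w * Ψ w 1 := by
  obtain ⟨A₁, p₁, h₁⟩ := hom_bd hP
  obtain ⟨A₂, p₂, h₂⟩ := hom_bd hQ
  refine ⟨1 + (A₁ ^ 2 + A₂ ^ 2) / a ^ 2, |log (A₁ ^ 2 + A₂ ^ 2)| + |d * log n - log (a ^ 2)|,
    le_add_of_nonneg_right (by positivity), fun F B g ρ c₀ hF hg h0 hB hρ => ?_⟩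
  have s1 : ball (0 : ℂ) (1 / 2) ⊆ ball 0 1 := ball_subset_ball (by norm_num)
  have s2 : ball (0 : ℂ) (1 / 2) ⊆ ball 0 (3 / 4) := ball_subset_ball (by norm_num)
  have hpos : ∀ z ∈ ball (0 : ℂ) 1, 0 < ‖F z‖ := fun z hz => norm_pos_iff.2 (hF.2 z hz)
  have hQ0 : eval (F 0) Q ≠ 0 := norm_pos_iff.1
    ((mul_pos ha (pow_pos (hpos 0 (mem_ball_self one_pos)) d)).trans_le (hB 0 h0).2)
  obtain ⟨φ, Ψ, hφ, hΨ, hG⟩ := hLi 2 (fun z => ![eval (F z) P, eval (F z) Q])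
    (differentiableOn_pi.2 fun i => by
      fin_cases i
      · exact ev_diff hF.1 P
      · exact ev_diff hF.1 Q) ⟨0, mem_ball_self one_pos, fun h => hQ0 (congrFun h 1)⟩
  have e0 : ∀ z ∈ ball (0 : ℂ) (3 / 4), eval (F z) P = φ z * Ψ z 0 := fun z hz =>
    congrFun (hG z hz) 0
  have e1 : ∀ z ∈ ball (0 : ℂ) (3 / 4), eval (F z) Q = φ z * Ψ z 1 := fun z hz =>
    congrFun (hG z hz) 1
  have hΨ' : Crv (ball 0 (1 / 2)) Ψ := ⟨hΨ.1.mono s2, fun z hz => hΨ.2 z (s2 hz)⟩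
  have up : ∀ z ∈ ball (0 : ℂ) (1 / 2),
      sq (Ψ z) * ‖φ z‖ ^ 2 ≤ (A₁ ^ 2 + A₂ ^ 2) * (‖F z‖ ^ 2) ^ d := fun z hz => by
    have a1 := pow_le_pow_left₀ (norm_nonneg _) (h₁ _ (hF.2 z (s1 hz))) 2
    have a2 := pow_le_pow_left₀ (norm_nonneg _) (h₂ _ (hF.2 z (s1 hz))) 2
    rw [e0 z (s2 hz), norm_mul, mul_pow, mul_pow, ← pow_mul, mul_comm d, pow_mul] at a1
    rw [e1 z (s2 hz), norm_mul, mul_pow, mul_pow, ← pow_mul, mul_comm d, pow_mul] at a2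
    rw [sq_two]
    linarith
  have lo : ∀ z ∈ ball (0 : ℂ) (1 / 2), z ∈ B →
      a ^ 2 * (‖F z‖ ^ 2) ^ d ≤ ‖Ψ z 0‖ ^ 2 * ‖φ z‖ ^ 2 := fun z hz hz' => by
    have a1 := pow_le_pow_left₀ (by positivity) (hB z hz').1 2
    rw [e0 z (s2 hz), norm_mul, mul_pow, mul_pow, ← pow_mul, mul_comm d, pow_mul] at a1
    linarith
  have ae := ae_ne (ev_diff hF.1 Q) hQ0
  refine ⟨Ψ, hΨ', fun z hz hz' => ?_, ?_, ?_⟩
  · have a1 := up z hz
    have a2 := lo z hz hz'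
    have a3 : 0 < a ^ 2 * (‖F z‖ ^ 2) ^ d := by
      have := hpos z (s1 hz)
      positivity
    have a4 : 0 < ‖φ z‖ ^ 2 := pos_of_mul_pos_right (a3.trans_le a2) (by positivity)
    have a5 := mul_le_mul_of_nonneg_left a2 (by positivity : 0 ≤ (A₁ ^ 2 + A₂ ^ 2) / a ^ 2)
    rw [← mul_assoc, div_mul_cancel₀ _ (by positivity), ← mul_assoc] at a5
    have a6 := le_of_mul_le_mul_right (a1.trans a5) a4
    nlinarith [sq_nonneg ‖Ψ z 0‖]
  · refine hC n 2 _ B g F Ψ φ c₀ d _ isOpen_ball hg ⟨hF.1.mono s1, fun z hz => hF.2 z (s1 hz)⟩ hΨ'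
      (hφ.mono s2) (by positivity) (ae.mono fun z hz0 hz => ?_)
    have a0 : φ z ≠ 0 := left_ne_zero_of_mul (e1 z (s2 hz) ▸ hz0 (s1 hz))
    have a1 : 0 < ‖φ z‖ ^ 2 := pow_pos (norm_pos_iff.2 a0) 2
    have a2 := sqp (hΨ'.2 z hz)
    have a3 := hpos z (s1 hz)
    obtain ⟨-, -, -, -, m1, m2, -⟩ := hM n (F z) 0 (hF.2 z (s1 hz))
    have a4 := log_le_log (by positivity) m1
    have a5 := log_le_log (sqp (hF.2 z (s1 hz))) m2
    have hn : (0 : ℝ) < n := pos_of_mul_pos_left ((sqp (hF.2 z (s1 hz))).trans_le m2)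
      (by positivity)
    rw [log_mul hn.ne' (by positivity)] at a5
    have a6 := mul_le_mul_of_nonneg_left a4 (Nat.cast_nonneg (α := ℝ) d)
    have a7 := mul_le_mul_of_nonneg_left a5 (Nat.cast_nonneg (α := ℝ) d)
    refine ⟨a0, ?_, fun hz' => ?_⟩
    · have b1 := log_le_log (mul_pos a2 a1) (up z hz)
      rw [log_mul a2.ne' a1.ne', log_mul (by positivity) (by positivity), log_pow _ d] at b1
      linarith [le_abs_self (log (A₁ ^ 2 + A₂ ^ 2)), abs_nonneg (d * log n - log (a ^ 2))]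
    · have b0 : ‖Ψ z 0‖ ^ 2 * ‖φ z‖ ^ 2 ≤ sq (Ψ z) * ‖φ z‖ ^ 2 := by
        rw [sq_two]
        exact mul_le_mul_of_nonneg_right (le_add_of_nonneg_right (by positivity)) a1.le
      have b1 := log_le_log (by positivity) ((lo z hz hz').trans b0)
      rw [log_mul a2.ne' a1.ne', log_mul (by positivity) (by positivity), log_pow _ d] at b1
      linarith [abs_nonneg (log (A₁ ^ 2 + A₂ ^ 2)), le_abs_self (d * log n - log (a ^ 2))]
  · refine ae.mono fun z hz0 hz hz' => ?_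
    have n1 := isOpen_ball.mem_nhds (s1 hz)
    have cP := ((ev_diff hF.1 P).differentiableAt n1).continuousAt
    have cQ := ((ev_diff hF.1 Q).differentiableAt n1).continuousAt
    have b1 := (Mer.eq (A := {z}) (fun w hw => Or.inl (hw ▸ hz')) rfl
      (cP.div cQ (hz0 (s1 hz))) (hρ z hz)).2
    filter_upwards [b1, cQ.eventually_ne (hz0 (s1 hz)), isOpen_ball.mem_nhds (s2 hz)]
      with w b2 b3 b4
    rw [e1 w b4] at b3
    refine ⟨right_ne_zero_of_mul b3, ?_⟩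
    rw [b2, Pi.div_apply, e0 w b4, e1 w b4, mul_div_mul_left _ _ (left_ne_zero_of_mul b3),
      div_mul_cancel₀ _ (right_ne_zero_of_mul b3)]

lemma lint_le {H : ℂ → ℝ} {x : ℝ} (h1 : Integrable H) (h2 : ∀ z, 0 ≤ H z) (h3 : ∫ z, H z ≤ x) :
    ∫⁻ z, ENNReal.ofReal (H z) ≤ ENNReal.ofReal x := by
  rw [← ofReal_integral_eq_lintegral_ofReal h1 (.of_forall h2)]
  exact ENNReal.ofReal_le_ofReal h3

theorem good : GreenStmt → LapRuleStmt → LapQStmt → MinorStmt → LiftStmt → CompStmt →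
    GoodStmt := by
  intro hG hL hQ hM hLi hC C n d F B P Q ρ c₀ a hOk hΩ hT hP hQ' ha H
  obtain ⟨K, a', hK, hd⟩ := disc hM hLi hC hP hQ' ha
  have H' : ∀ᶠ k in atTop, TF c₀ (ball 0 (1 / 2)) (B k) (C.g k) ∧
      ∃ Ψ : ℂ → Fin 2 → ℂ, Crv (ball 0 (1 / 2)) Ψ ∧
        (∀ z ∈ ball (0 : ℂ) (1 / 2), z ∈ B k → sq (Ψ z) ≤ K * ‖Ψ z 0‖ ^ 2) ∧
        ∫ z, lam Ψ z * C.g k z ≤ (2 * d + 1) * C.T k ∧
        ∀ᵐ z, z ∈ ball (0 : ℂ) (1 / 2) → AnalyticAt ℂ (ρ k) z →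
          ∀ᶠ w in 𝓝 z, Ψ w 1 ≠ 0 ∧ Ψ w 0 = ρ k w * Ψ w 1 := by
    filter_upwards [H, hT.eventually_ge_atTop (a' * c₀)] with k ⟨a1, a2, a3, a4, a5, a6⟩ hk
    rw [hΩ k] at a2 a6
    obtain ⟨Ψ, b1, b2, b3, b4⟩ := hd (F k) (B k) (C.g k) (ρ k) c₀ a1 a2 a4 a5 a6
    refine ⟨a2, Ψ, b1, b2, b3.trans ?_, b4⟩
    have := mul_le_mul_of_nonneg_left a3 (Nat.cast_nonneg (α := ℝ) d)
    linarith
  refine ⟨⟨2 * d + 1, ?_⟩, fun ε hε => ?_⟩
  · filter_upwards [H'] with k ⟨a2, Ψ, b1, _, b3, b4⟩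
    obtain ⟨-, q, -⟩ := hQ 2 _ Ψ isOpen_ball b1
    obtain ⟨c1, c2⟩ := mul_cont isOpen_ball q.1 a2.1.1.continuous a2.1.2.1 a2.1.2.2
    refine ⟨fun z => ENNReal.ofReal (lam Ψ z * C.g k z), c1.measurable.ennreal_ofReal,
      b4.mono fun z b hz => ENNReal.ofReal_le_ofReal ?_, lint_le c2 (fun z => ?_) b3⟩
    · obtain ⟨hz1, hz2⟩ := hz
      rw [hΩ k] at hz1
      rw [mul_comm]
      exact mul_le_mul_of_nonneg_right (lam_ge hM hz2.differentiableAt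
        (b1.1.differentiableAt (isOpen_ball.mem_nhds hz1)) (b hz1 hz2)) (hOk.2.1 k z)
    · by_cases hz : z ∈ ball (0 : ℂ) (1 / 2)
      · exact mul_nonneg (q.2 z hz) (hOk.2.1 k z)
      · rw [image_eq_zero_of_notMem_tsupport fun h => hz (a2.1.2.2 h), mul_zero]
  · set s₀ : ℝ := 2 + 648 * (2 * d + 1) / ε with hs₀
    have hs : 2 ≤ s₀ := le_add_of_nonneg_right (by positivity)
    refine ⟨exp (-s₀ / 2), exp_pos _, ?_⟩
    filter_upwards [H', hT.eventually_ge_atTop (162 * (log (s₀ + log K) * c₀) / ε)]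
      with k ⟨a2, Ψ, b1, b2, b3, b4⟩ hk
    have hj : ∀ j : ℕ, (0 : ℝ) < 1 / (j + 1) := fun j => Nat.one_div_pos_of_nat
    choose Hf c1 c2 c3 c4 using fun j : ℕ => core hG hL hQ isOpen_ball a2 b1 hK b2 hs (hj j)
      ((div_le_one (by positivity)).2 (le_add_of_nonneg_left j.cast_nonneg))
    have c5 : ∀ j z, 0 ≤ Hf j z := fun j z =>
      le_trans (mul_nonneg (by positivity) (hOk.2.1 k z)) (c4 j z)
    have hm : ∀ j, Measurable fun z => ENNReal.ofReal (81 * Hf j z) := fun j =>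
      ((c1 j).const_mul 81).measurable.ennreal_ofReal
    refine ⟨fun z => liminf (fun j => ENNReal.ofReal (81 * Hf j z)) atTop, .liminf hm,
      b4.mono fun z b hz => ?_, (lintegral_liminf_le hm).trans
        (liminf_le_of_frequently_le' (.of_forall fun j => ?_))⟩
    · obtain ⟨⟨hz1, hz2⟩, hz3⟩ := hz
      rw [hΩ k] at hz1
      by_cases h0 : ρ k z = 0
      · simp [Pc, h0]
      · have t0 : 0 < ‖ρ k z‖ ^ 2 := pow_pos (norm_pos_iff.2 h0) 2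
        have t1 : ‖ρ k z‖ ^ 2 < exp (-s₀) := by
          refine (pow_lt_pow_left₀ hz3 (norm_nonneg _) two_ne_zero).trans_eq ?_
          rw [← exp_nat_mul]
          congr 1
          push_cast
          ring
        refine le_liminf_of_le (by isBoundedDefault) ?_
        filter_upwards [tendsto_one_div_add_atTop_nhds_zero_nat.eventually (ge_mem_nhds t0)]
          with j hj'
        refine ENNReal.ofReal_le_ofReal ?_
        have h1 := mul_le_mul_of_nonneg_left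
          (pw hz2.differentiableAt (b hz1 hz2) (hj j) hj' hs t1) (hOk.2.1 k z)
        linarith [c4 j z]
    · refine lint_le ((c2 j).const_mul 81) (fun z => mul_nonneg (by norm_num) (c5 j z)) ?_
      rw [integral_const_mul]
      have hT0 := hOk.2.2.1 k
      have h1 : 4 / (s₀ - 1) * (∫ z, lam Ψ z * C.g k z) ≤ ε / 162 * C.T k := by
        refine (mul_le_mul_of_nonneg_left b3 (div_nonneg (by norm_num) (by linarith))).trans ?_
        rw [← mul_assoc]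
        refine mul_le_mul_of_nonneg_right ?_ hT0.le
        rw [div_mul_eq_mul_div, div_le_iff₀ (by linarith), hs₀]
        have : ε / 162 * (648 * (2 * d + 1) / ε) = 4 * (2 * d + 1) := by
          field_simp
          norm_num
        nlinarith
      rw [div_le_iff₀ hε] at hk
      linarith [c3 j]

end Pool.Agent.MP_c69980_ag.H4.H62
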