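import Mathlib

/-!
Plane models of function fields in one variable.
-/

set_option autoImplicit false

namespace Pool.Agent.MP_c69980_ag.H62

open Polynomial

variable {L : Type} [Field L] [Algebra ℂ L]

theorem aa_eq {A : Type} [CommRing A] [Algebra ℂ A] (x y : A) (Q : ℂ[X][X]) :
    aevalAeval x y Q = Q.eval₂ (aeval x : ℂ[X] →ₐ[ℂ] A).toRingHom y := by
  induction Q using Polynomial.induction_on with
  | C a => simp
  | add p q hp hq => rw [map_add, eval₂_add, hp, hq]
  | monomial n a _ => simp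

theorem aa_map {A B : Type} [CommRing A] [Algebra ℂ A] [CommRing B] [Algebra ℂ B]
    (φ : A →ₐ[ℂ] B) (x y : A) (Q : ℂ[X][X]) :
    φ (aevalAeval x y Q) = aevalAeval (φ x) (φ y) Q := by
  induction Q using Polynomial.induction_on with
  | C a => simp [aeval_algHom_apply]
  | add p q hp hq => rw [map_add, map_add, map_add, hp, hq]
  | monomial n a _ => simp [aeval_algHom_apply]

theorem aa_comp {A : Type} [CommRing A] [Algebra ℂ A] (x y : A) (Q B : ℂ[X][X]) :
    aevalAeval x y (Q.comp B) = aevalAeval x (aevalAeval x y B) Q := by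
  induction Q using Polynomial.induction_on with
  | C a => simp
  | add p q hp hq => rw [add_comp, map_add, map_add, hp, hq]
  | monomial n a _ => simp

theorem aa_ev (x y : ℂ) (Q : ℂ[X][X]) : aevalAeval x y Q = Q.evalEval x y :=
  congrFun (coe_aevalAeval_eq_evalEval x y) Q

theorem aa_zero (x : ℂ) (Q : ℂ[X][X]) : aevalAeval x 0 Q = (Q.coeff 0).eval x := by
  rw [aa_ev, evalEval, coeff_zero_eq_eval_zero, map_zero]

/-- Two elements are algebraically dependent. -/
theorem dep (h : Algebra.trdeg ℂ L = 1) (x g : L) :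
    ∃ Q : ℂ[X][X], Q ≠ 0 ∧ aevalAeval x g Q = 0 := by
  by_cases hx : IsAlgebraic ℂ x
  · obtain ⟨p, hp, h0⟩ := hx
    exact ⟨C p, by simpa using hp, by simpa using h0⟩
  have h1 : AlgebraicIndependent ℂ (fun _ : Unit => x) :=
    algebraicIndependent_unique_type_iff.2 hx
  have h2 := (h1.isTranscendenceBasis_of_trdeg_le (by simp [h]) (by simp [h])).isAlgebraic
  obtain ⟨Q', hQ', h0⟩ := h2.1 g
  let φ : ℂ[X] →ₐ[ℂ] Algebra.adjoin ℂ (Set.range fun _ : Unit => x) :=
    aeval ⟨x, Algebra.subset_adjoin ⟨(), rfl⟩⟩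
  have e : ∀ p, (φ p : L) = aeval x p := fun p =>
    aeval_algHom_apply (Algebra.adjoin ℂ (Set.range fun _ : Unit => x)).val _ p |>.symm
  have hs : Function.Surjective φ := by
    rintro ⟨z, hz⟩
    rw [Set.range_const, Algebra.adjoin_singleton_eq_range_aeval] at hz
    obtain ⟨p, rfl⟩ := hz
    exact ⟨p, Subtype.ext (e p)⟩
  obtain ⟨Q, rfl⟩ := map_surjective φ.toRingHom hs Q'
  refine ⟨Q, fun h3 => hQ' (by rw [h3, Polynomial.map_zero]), ?_⟩
  rw [aeval_def, eval₂_map] at h0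
  rw [aa_eq, ← h0]
  congr 1
  exact RingHom.ext fun p => (e p).symm

theorem dep' (h : Algebra.trdeg ℂ L = 1) (x : L) {g : L} (hg : g ≠ 0) :
    ∃ Q : ℂ[X][X], Q.coeff 0 ≠ 0 ∧ aevalAeval x g Q = 0 := by
  obtain ⟨Q, h1, h2⟩ := dep h x g
  let _ : Algebra ℂ[X] L := (aeval x : ℂ[X] →ₐ[ℂ] L).toRingHom.toAlgebra
  have h3 : IsAlgebraic ℂ[X] g := ⟨Q, h1, by rw [aa_eq] at h2; exact h2⟩
  obtain ⟨Q', h4, h5⟩ := h3.exists_nonzero_coeff_and_aeval_eq_zero (mem_nonZeroDivisors_of_ne_zero hg)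
  exact ⟨Q', h4, by rw [aa_eq]; exact h5⟩

/-- The plane model of a function field. -/
theorem plane (h : Algebra.trdeg ℂ L = 1) {T : Set L} (hT : T.Finite)
    (hg : IntermediateField.adjoin ℂ T = ⊤) : ∃ (t y : L) (P : ℂ[X][X]), P.Monic ∧
      0 < P.natDegree ∧ aevalAeval t y P = 0 ∧ (∀ A, aevalAeval t y A = 0 → P ∣ A) ∧
      (∀ a : ℂ[X], aeval t a = 0 → a = 0) ∧
      ∀ z : L, ∃ (b : ℂ[X]) (W : ℂ[X][X]), b ≠ 0 ∧ aevalAeval t y W = aeval t b * z := by
  obtain ⟨t, ht⟩ := (trdeg_ne_zero_iff.1 (by rw [h]; exact one_ne_zero) :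
    Algebra.Transcendental ℂ L).transcendental
  have hi := transcendental_iff_injective.1 ht
  let _ : Algebra ℂ[X] L := (aeval t : ℂ[X] →ₐ[ℂ] L).toRingHom.toAlgebra
  have : IsScalarTower ℂ ℂ[X] L := IsScalarTower.of_algebraMap_eq fun c =>
    ((aeval t : ℂ[X] →ₐ[ℂ] L).commutes c).symm
  have : FaithfulSMul ℂ[X] L := (faithfulSMul_iff_algebraMap_injective _ _).2 hi
  have e : ∀ (y : L) (Q : ℂ[X][X]), aevalAeval t y Q = aeval y Q := fun y Q => aa_eq t y Q
  have ha : ∀ z : L, IsAlgebraic ℂ[X] z := fun z => by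
    obtain ⟨Q, h1, h2⟩ := dep h t z
    exact ⟨Q, h1, e z Q ▸ h2⟩
  let K := FractionRing ℂ[X]
  let _ : Algebra K L := FractionRing.liftAlgebra ℂ[X] L
  have : IsScalarTower ℂ K L := IsScalarTower.of_algebraMap_eq fun c => by
    rw [IsScalarTower.algebraMap_apply ℂ ℂ[X] K, ← IsScalarTower.algebraMap_apply ℂ[X] K L,
      ← IsScalarTower.algebraMap_apply]
  have hK : ∀ z : L, IsAlgebraic K z := fun z =>
    (ha z).extendScalars (IsFractionRing.injective ℂ[X] K)
  have : Algebra.IsAlgebraic K L := ⟨hK⟩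
  have : Finite T := hT
  have : FiniteDimensional K L := by
    have h1 := IntermediateField.finiteDimensional_adjoin (K := K) (S := T)
      fun z _ => (hK z).isIntegral
    rw [IntermediateField.adjoin_eq_top_of_adjoin_eq_top ℂ hg] at h1
    exact IntermediateField.topEquiv.toLinearEquiv.finiteDimensional
  have : CharZero K := algebraRat.charZero K
  obtain ⟨α, hα⟩ := Field.exists_primitive_element K L
  obtain ⟨r, hr, hy⟩ := (ha α).exists_integral_multiple
  refine ⟨t, r • α, minpoly ℂ[X] (r • α), minpoly.monic hy, minpoly.natDegree_pos hy,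
    by rw [e, minpoly.aeval], fun A hA => minpoly.isIntegrallyClosed_dvd hy (e _ A ▸ hA),
    fun a h1 => hi (by rw [h1, map_zero]), fun z => ?_⟩
  have h1 : α ∈ Algebra.adjoin K {r • α} := by
    have h2 : algebraMap ℂ[X] K r ≠ 0 := by simpa using hr
    have h3 : α = (algebraMap ℂ[X] K r)⁻¹ • (r • α) := by
      rw [← algebraMap_smul K r α, inv_smul_smul₀ h2]
    nth_rewrite 2 [h3]
    exact Subalgebra.smul_mem _ (Algebra.self_mem_adjoin_singleton K _) _
  have h2 : z ∈ Algebra.adjoin K {r • α} := by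
    have h3 : z ∈ Algebra.adjoin K {α} := by
      rw [← IntermediateField.adjoin_simple_toSubalgebra_of_isAlgebraic (hK α), hα]
      trivial
    exact Algebra.adjoin_le (Set.singleton_subset_iff.2 h1) h3
  obtain ⟨b, hb⟩ := multiple_mem_adjoin_of_mem_localization_adjoin (nonZeroDivisors ℂ[X]) K _ z h2
  rw [Algebra.adjoin_singleton_eq_range_aeval] at hb
  obtain ⟨W, hW⟩ := hb
  exact ⟨b, W, nonZeroDivisors.coe_ne_zero b, by
    rw [e]
    exact hW.trans (Algebra.smul_def (b : ℂ[X]) z)⟩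

/-- A common denominator. -/
theorem common {t y : L} {m : ℕ} (u : Fin m → L)
    (h : ∀ z : L, ∃ (b : ℂ[X]) (W : ℂ[X][X]), b ≠ 0 ∧ aevalAeval t y W = aeval t b * z) :
    ∃ (q : ℂ[X]) (W : Fin m → ℂ[X][X]), q ≠ 0 ∧ ∀ i, aevalAeval t y (W i) = aeval t q * u i := by
  choose b W hb hW using fun i => h (u i)
  choose c hc using fun i => Finset.dvd_prod_of_mem b (Finset.mem_univ i)
  refine ⟨∏ i, b i, fun i => C (c i) * W i, Finset.prod_ne_zero_iff.2 fun i _ => hb i, fun i => ?_⟩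
  rw [map_mul, hW, hc i, aevalAeval_C, map_mul]
  ring

theorem ev_zero {P A : ℂ[X][X]} (h : P ∣ A) {s v : ℂ} (hP : P.evalEval s v = 0) :
    A.evalEval s v = 0 := by
  obtain ⟨B, rfl⟩ := h
  rw [evalEval_mul, hP, zero_mul]

/-- A nonzero function has finitely many zeros on the plane model. -/
theorem fin_zero (h : Algebra.trdeg ℂ L = 1) {t y : L} {P : ℂ[X][X]}
    (hP : ∀ A, aevalAeval t y A = 0 → P ∣ A) {A : ℂ[X][X]} (hA : aevalAeval t y A ≠ 0) :
    {s | ∃ v, P.evalEval s v = 0 ∧ A.evalEval s v = 0}.Finite := by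
  obtain ⟨Q, h1, h2⟩ := dep' h t hA
  refine (finite_setOfPred_isRoot h1).subset ?_
  rintro s ⟨v, h3, h4⟩
  have h5 := ev_zero (hP (Q.comp A) (by rw [aa_comp, h2])) h3
  rw [← aa_ev, aa_comp, aa_ev s v A, h4, aa_zero] at h5
  exact h5

end Pool.Agent.MP_c69980_ag.H62
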