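import Pool.Agent.MP_c69980_ag.H4.SpecC
import Pool.Agent.MP_c69980_ag.H60.Model
import Pool.Agent.MP_c69980_ag.H60.Arc
import Pool.Agent.MP_c69980_ag.H62.PlaneA

/-!
The plane model of a quasi-projective curve.
-/

set_option autoImplicit false

namespace Pool.Agent.MP_c69980_ag.H62

open MvPolynomial H60 H4

variable {m : ℕ} {L : Type} [Field L] [Algebra ℂ L] {w : Fin m → L} {C : Set (PS m)}

theorem vl_aa {p : Fin m → ℂ} (hp : On w p) {a b : L} (ha : Reg w p a) (hb : Reg w p b)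
    (Q : Polynomial (Polynomial ℂ)) :
    vl w (Polynomial.aevalAeval a b Q) p = Q.evalEval (vl w a p) (vl w b p) := by
  have e := aa_map (rg hp).val ⟨a, ha⟩ ⟨b, hb⟩ Q
  have e2 := aa_map (chi hp) ⟨a, ha⟩ ⟨b, hb⟩ Q
  rw [aa_ev] at e2
  exact (congrArg (fun g => vl w g p) e).symm.trans e2

theorem vl_zero {p : Fin m → ℂ} (hp : On w p) : vl w 0 p = 0 := by simpa using (vl_const hp 0).2

theorem on_rep (hw : GenPt C w) {c : PS m} (hc : c ∈ C) : On w c.rep :=
  fun G d hG h => (hw.1 G d hG).1 h c hc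

/-- A form that is not zero at the generic point has finitely many zeros on the curve. -/
theorem fin_form (hw : GenPt C w) (h : Algebra.trdeg ℂ L = 1) {G : PR m} {d : ℕ}
    (hG : G.IsHomogeneous d) (h0 : aeval w G ≠ 0) : {c | c ∈ C ∧ eval c.rep G = 0}.Finite := by
  have key : ∀ j, {c | c ∈ C ∧ c.rep j ≠ 0 ∧ eval c.rep G = 0}.Finite := by
    intro j
    have hX := isHomogeneous_X ℂ j
    have hXd : (X j ^ d : PR m).IsHomogeneous d := isHomogeneous_X_pow _ _
    by_cases hj : w j = 0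
    · refine Set.finite_empty.subset fun c hc => hc.2.1 ?_
      simpa using on_rep hw hc.1 (X j) 1 hX (by simpa using hj)
    have hg : aeval w G / aeval w (X j ^ d : PR m) ≠ 0 := div_ne_zero h0 (by simp [hj])
    choose Q hQ hQ0 using fun i => dep' h (aeval w (X i : PR m) / aeval w (X j : PR m)) hg
    refine Set.Finite.of_injOn (f := fun (c : PS m) i => c.rep i / c.rep j)
      (fun c hc => Set.mem_univ_pi.2 fun i => ?_) (fun c hc c' hc' e => ?_)
      (Set.Finite.pi fun i => Polynomial.finite_setOfPred_isRoot (hQ i))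
    · have hp := on_rep hw hc.1
      have a1 : eval c.rep (X j : PR m) ≠ 0 := by simpa using hc.2.1
      have a2 : eval c.rep (X j ^ d : PR m) ≠ 0 := by simp [hc.2.1]
      have a3 := vl_aa hp ⟨_, _, 1, isHomogeneous_X ℂ i, hX, a1, rfl⟩ ⟨_, _, d, hG, hXd, a2, rfl⟩
        (Q i)
      rw [hQ0, vl_zero hp, vl_eq hp (isHomogeneous_X ℂ i) hX a1, vl_eq hp hG hXd a2, hc.2.2,
        zero_div, ← aa_ev, aa_zero, eval_X, eval_X] at a3
      exact a3.symm
    · rw [← c.mk_rep, ← c'.mk_rep, Projectivization.mk_eq_mk_iff']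
      refine ⟨c.rep j / c'.rep j, funext fun i => ?_⟩
      have a1 := congrFun e i
      have a2 := hc.2.1
      have a3 := hc'.2.1
      simp only [Pi.smul_apply, smul_eq_mul]
      field_simp at a1 ⊢
      linear_combination -a1
  refine (Set.finite_iUnion key).subset fun c hc => ?_
  obtain ⟨j, hj⟩ := Function.ne_iff.1 c.rep_nonzero
  exact Set.mem_iUnion.2 ⟨j, hc.1, hj, hc.2⟩

theorem model : ModelStmt := by
  classical
  intro m C L _ _ w hC hw h
  obtain ⟨⟨⟨c₀, hc₀⟩, -⟩, Z, Z', ⟨SZ, hSZ, rfl⟩, ⟨SW, hSW, rfl⟩, hCe⟩ := hC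
  obtain ⟨j, hj⟩ := Function.ne_iff.1 c₀.rep_nonzero
  have hX := isHomogeneous_X ℂ j
  have ne : ∀ {R : PR m} {d : ℕ}, R.IsHomogeneous d → (∃ c ∈ C, eval c.rep R ≠ 0) →
      aeval w R ≠ 0 := fun hR ⟨c, hc, h1⟩ h2 => h1 (on_rep hw hc _ _ hR h2)
  have hwj : w j ≠ 0 := by simpa using ne hX ⟨c₀, hc₀, by simpa using hj⟩
  obtain ⟨G, hGS, hG0⟩ : ∃ G ∈ SW, eval c₀.rep G ≠ 0 := by
    have := (hCe ▸ hc₀).2
    simpa using this
  obtain ⟨dG, hG⟩ := hSW G hGS
  have hT : {u | ∃ i k, u = w i / w k}.Finite :=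
    (Set.finite_range fun p : Fin m × Fin m => w p.1 / w p.2).subset
      fun u ⟨i, k, e⟩ => ⟨(i, k), e.symm⟩
  obtain ⟨t, y, P, hP1, hP2, hP0, hPd, ht, hz⟩ := plane h hT hw.2
  obtain ⟨q, W, hq, hW⟩ := common (fun i => w i / w j) hz
  have hqt : Polynomial.aeval t q ≠ 0 := fun e => hq (ht q e)
  have sub : ∀ {R : PR m} {d : ℕ}, R.IsHomogeneous d → Polynomial.aevalAeval t y (aeval W R) =
      (Polynomial.aeval t q / w j) ^ d * aeval w R := fun {R d} hR => by
    rw [comp_aeval_apply, ← aeval_scale hR]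
    congr 2
    funext i
    rw [hW]
    ring
  have sub2 : ∀ (R : PR m) (s v : ℂ), (aeval W R : Polynomial (Polynomial ℂ)).evalEval s v =
      eval (fun i => (W i).evalEval s v) R := fun R s v => by
    rw [← aa_ev, comp_aeval_apply]
    simp only [aa_ev]
    rfl
  have fin : ∀ (R : PR m) (d : ℕ), R.IsHomogeneous d → (∃ c ∈ C, eval c.rep R ≠ 0) →
      {s | ∃ v, P.evalEval s v = 0 ∧ eval (fun i => (W i).evalEval s v) R = 0}.Finite := by
    intro R d hR h1
    have := fin_zero h hPd (A := aeval W R) (by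
      rw [sub hR]
      exact mul_ne_zero (pow_ne_zero _ (div_ne_zero hqt hwj)) (ne hR h1))
    simpa only [sub2] using this
  have hd : Polynomial.aevalAeval t y P.derivative ≠ 0 := fun e => by
    have h1 : P.derivative ≠ 0 := fun e' => by
      have := Polynomial.derivative_eq_zero.1 e'
      omega
    have h2 := Polynomial.natDegree_le_of_dvd (hPd _ e) h1
    have h3 := Polynomial.natDegree_derivative_lt hP2.ne'
    omega
  have f1 := fin_zero h hPd hd
  have f2 := fin G dG hG ⟨c₀, hc₀, hG0⟩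
  have f3 := fin (X j) 1 hX ⟨c₀, hc₀, by simpa using hj⟩
  have f4 := ((f1.union f2).union f3).insert 0
  obtain ⟨F₁, G₁, d₁, hF₁, hG₁, n₁, e₁⟩ := quot hw t
  obtain ⟨F₂, G₂, d₂, hF₂, hG₂, n₂, e₂⟩ := quot hw y
  have hs : ∀ s : ℂ, (F₁ - MvPolynomial.C s * G₁).IsHomogeneous d₁ := fun s =>
    hF₁.sub (hG₁.C_mul s)
  have ns : ∀ s : ℂ, aeval w (F₁ - MvPolynomial.C s * G₁) ≠ 0 := fun s e => by
    refine Polynomial.X_sub_C_ne_zero s (ht _ ?_)
    rw [map_sub, map_mul, aeval_C, sub_eq_zero] at e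
    rw [map_sub, Polynomial.aeval_X, Polynomial.aeval_C, e₁, e, mul_div_assoc, div_self n₁, mul_one,
      sub_self]
  have g1 := fin_form hw h hG₁ n₁
  have g2 := fin_form hw h hG₂ n₂
  have g3 := fin_form hw h hX (by simpa using hwj)
  have g4 := f4.biUnion fun s _ => fin_form hw h (hs s) (ns s)
  refine ⟨P, f4.toFinset, W, _, hP1, hP2, ⟨0, by simp⟩, ((g1.union g2).union g3).union g4,
    fun s hs v hv => ?_, fun c hc hE => ?_, fin⟩
  · simp only [Set.Finite.mem_toFinset, Set.mem_insert_iff, Set.mem_union, Set.mem_ofPred_eq, not_or,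
      not_exists, not_and] at hs
    obtain ⟨-, ⟨a1, a2⟩, a3⟩ := hs
    have a4 : (fun i => (W i).evalEval s v) ≠ 0 := fun e => a3 v hv (by rw [e]; simp)
    refine ⟨a1 v hv, a4, ?_⟩
    rw [hCe]
    refine ⟨fun F hF => ?_, fun a5 => a2 v hv ((eval_mk hG a4).1 (a5 G hGS))⟩
    obtain ⟨d, hd⟩ := hSZ F hF
    rw [eval_mk hd, ← sub2]
    refine ev_zero (hPd _ ?_) hv
    rw [sub hd, (hw.1 F d hd).2 fun c hc => (hCe ▸ hc).1 F hF, mul_zero]
  · simp only [Set.mem_union, Set.mem_ofPred_eq, Set.mem_iUnion, not_or, not_exists, hc,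
      true_and] at hE
    obtain ⟨⟨⟨a1, a2⟩, a3⟩, a4⟩ := hE
    have hp := on_rep hw hc
    have r1 : Reg w c.rep t := ⟨_, _, _, hF₁, hG₁, a1, e₁⟩
    have r2 : Reg w c.rep y := ⟨_, _, _, hF₂, hG₂, a2, e₂⟩
    have b1 : vl w t c.rep ∉ f4.toFinset := fun hm => by
      refine a4 _ (f4.mem_toFinset.1 hm) ?_
      rw [e₁, vl_eq hp hF₁ hG₁ a1, map_sub, map_mul, eval_C, div_mul_cancel₀ _ a1, sub_self]
    have b2 : P.evalEval (vl w t c.rep) (vl w y c.rep) = 0 := by
      rw [← vl_aa hp r1 r2, hP0, vl_zero hp]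
    have ri : ∀ i, Reg w c.rep (w i / w j) ∧ vl w (w i / w j) c.rep = c.rep i / c.rep j :=
      fun i => ⟨⟨X i, X j, 1, isHomogeneous_X ℂ i, hX, a3, by simp⟩, by
        simpa using vl_eq hp (isHomogeneous_X ℂ i) hX a3⟩
    have rq : Reg w c.rep (Polynomial.aeval t q) := by
      have e := Polynomial.aeval_algHom_apply (rg hp).val ⟨t, r1⟩ q
      exact e ▸ Subtype.prop (p := (· ∈ rg hp)) _
    have b3 : ∀ i, (W i).evalEval (vl w t c.rep) (vl w y c.rep) =
        vl w (Polynomial.aeval t q) c.rep * (c.rep i / c.rep j) := fun i => by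
      rw [← vl_aa hp r1 r2, hW, (vl_mul hp rq (ri i).1).2, (ri i).2]
    have b4 : (W j).evalEval (vl w t c.rep) (vl w y c.rep) ≠ 0 := fun e =>
      b1 (f4.mem_toFinset.2 (Or.inr (Or.inr ⟨_, b2, by simpa using e⟩)))
    refine ⟨_, b1, _, b2, fun e => b4 (congrFun e j), ?_⟩
    refine c.mk_rep.symm.trans ((Projectivization.mk_eq_mk_iff' ℂ _ _ _ _).2
      ⟨vl w (Polynomial.aeval t q) c.rep / c.rep j, _root_.funext fun i => ?_⟩).symm
    simp only [Pi.smul_apply, smul_eq_mul, b3]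
    ring

end Pool.Agent.MP_c69980_ag.H62
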