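import Pool.Agent.MP_c69980_ag.H4.Base

/-!
Row 3, first part: the logarithmic derivative estimate on one disc.
-/

set_option autoImplicit false

noncomputable section

namespace Pool.Agent.MP_c69980_ag.H4.H62

open MvPolynomial Metric Filter Topology MeasureTheory Set Real
open scoped ContDiff ENNReal ComplexConjugate

variable {O B : Set ℂ} {u g : ℂ → ℝ} {z : ℂ}

lemma lap_cont (hO : IsOpen O) (hu : ContDiffOn ℝ 2 u O) : ContinuousOn (lap u) O := by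
  have h1 : ∀ v, ContDiffOn ℝ 1 (D v u) O := fun v =>
    (hu.fderiv_of_isOpen hO (by norm_num)).clm_apply contDiffOn_const
  have h2 : ∀ v, ContinuousOn (D v (D v u)) O := fun v =>
    ((h1 v).continuousOn_fderiv_of_isOpen hO le_rfl).clm_apply continuousOn_const
  exact (h2 1).add (h2 Complex.I)

lemma lap_supp (g : ℂ → ℝ) : tsupport (lap g) ⊆ tsupport g := by
  have h : ∀ v, tsupport (D v (D v g)) ⊆ tsupport g := fun v =>
    (tsupport_fderiv_apply_subset ℝ v).trans (tsupport_fderiv_apply_subset ℝ v)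
  exact (tsupport_add (D 1 (D 1 g)) (D Complex.I (D Complex.I g))).trans
    (union_subset (h _) (h _))

lemma mul_cont {ψ : ℂ → ℝ} (hO : IsOpen O) (hu : ContinuousOn u O) (h1 : Continuous ψ)
    (h2 : HasCompactSupport ψ) (h3 : tsupport ψ ⊆ O) :
    Continuous (fun z => u z * ψ z) ∧ Integrable fun z => u z * ψ z := by
  have h : Continuous fun z => u z * ψ z :=
    (hu.mul h1.continuousOn).continuous_of_tsupport_subset hO (tsupport_mul_subset_right.trans h3)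
  exact ⟨h, h.integrable_of_hasCompactSupport h2.mul_left⟩

lemma test_lap (hg : Test O g) :
    Continuous (lap g) ∧ HasCompactSupport (lap g) ∧ tsupport (lap g) ⊆ O :=
  ⟨continuousOn_univ.1 (lap_cont isOpen_univ (hg.1.of_le (by norm_cast)).contDiffOn),
    hg.2.1.of_isClosed_subset (isClosed_tsupport _) (lap_supp g), (lap_supp g).trans hg.2.2⟩

lemma sqp {n : ℕ} {y : Fin n → ℂ} (hy : y ≠ 0) : 0 < sq y := by
  obtain ⟨i, hi⟩ := Function.ne_iff.1 hy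
  exact Finset.sum_pos' (fun _ _ => by positivity)
    ⟨i, Finset.mem_univ i, pow_pos (norm_pos_iff.2 hi) 2⟩

/-- The perturbed curve. -/
def pe (e : ℝ) (Ψ : ℂ → Fin 2 → ℂ) (z : ℂ) : Fin 3 → ℂ :=
  ![Ψ z 0, (√e : ℝ) * Ψ z 0, (√e : ℝ) * Ψ z 1]

/-- The regularised proximity function. -/
def se (e : ℝ) (Ψ : ℂ → Fin 2 → ℂ) (z : ℂ) : ℝ := log (sq (Ψ z)) - log (sq (pe e Ψ z))

variable {Ψ : ℂ → Fin 2 → ℂ} {e s₀ K c₀ : ℝ}

lemma sq_two (y : Fin 2 → ℂ) : sq y = ‖y 0‖ ^ 2 + ‖y 1‖ ^ 2 := Fin.sum_univ_two _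

lemma sq_pe (he : 0 ≤ e) (Ψ : ℂ → Fin 2 → ℂ) (z : ℂ) :
    sq (pe e Ψ z) = ‖Ψ z 0‖ ^ 2 + e * sq (Ψ z) := by
  rw [sq_two, H4.sq, Fin.sum_univ_three]
  simp only [pe, Matrix.cons_val_zero, Matrix.cons_val_one, Matrix.cons_val, norm_mul, mul_pow,
    Complex.norm_real, Real.norm_eq_abs, sq_abs, sq_sqrt he]
  ring

lemma crv_pe (he : 0 < e) (hΨ : Crv O Ψ) : Crv O (pe e Ψ) := by
  have h := differentiableOn_pi.1 hΨ.1
  refine ⟨differentiableOn_pi.2 fun i => ?_, fun z hz h0 => ?_⟩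
  · fin_cases i
    · exact h 0
    · exact (h 0).const_mul _
    · exact (h 1).const_mul _
  · have h1 := sq_pe he.le Ψ z
    have h2 := mul_pos he (sqp (hΨ.2 z hz))
    rw [h0, H4.sq] at h1
    simp only [Pi.zero_apply, norm_zero, ne_eq, OfNat.ofNat_ne_zero, not_false_eq_true, zero_pow,
      Finset.sum_const_zero] at h1
    nlinarith [sq_nonneg ‖Ψ z 0‖]

lemma se_ge (he : 0 < e) (he1 : e ≤ 1) (hz : Ψ z ≠ 0) : -1 ≤ se e Ψ z := by
  have h1 := sqp hz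
  have h2 : sq (pe e Ψ z) ≤ 2 * sq (Ψ z) := by
    rw [sq_pe he.le]
    have := sq_two (Ψ z)
    nlinarith [sq_nonneg ‖Ψ z 1‖]
  have h3 : 0 < sq (pe e Ψ z) := by
    rw [sq_pe he.le]
    positivity
  have h4 := log_le_log h3 h2
  rw [log_mul two_ne_zero h1.ne'] at h4
  have := log_two_lt_d9
  unfold se
  linarith

lemma se_le (he : 0 < e) (hK : 1 ≤ K) (hz : Ψ z ≠ 0) (h : sq (Ψ z) ≤ K * ‖Ψ z 0‖ ^ 2) :
    se e Ψ z ≤ log K := by
  have h1 := sqp hz
  have h3 : 0 < sq (pe e Ψ z) := by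
    rw [sq_pe he.le]
    positivity
  have h2 : sq (Ψ z) ≤ K * sq (pe e Ψ z) := by
    rw [sq_pe he.le]
    exact h.trans (mul_le_mul_of_nonneg_left (le_add_of_nonneg_right (by positivity)) (by linarith))
  have h4 := log_le_log h1 h2
  rw [log_mul (by linarith) h3.ne'] at h4
  unfold se
  linarith

lemma der1 (s₀ : ℝ) : deriv (fun s => log (s + s₀)) = fun s => (s + s₀)⁻¹ := by
  funext s
  rw [deriv_comp_add_const log, Real.deriv_log]

lemma der2 (s₀ s : ℝ) : deriv (deriv fun s => log (s + s₀)) s = -((s + s₀) ^ 2)⁻¹ := by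
  rw [der1, deriv_comp_add_const (fun x : ℝ => x⁻¹), deriv_inv]

lemma core (hG : GreenStmt) (hL : LapRuleStmt) (hQ : LapQStmt) (hO : IsOpen O) (hg : TF c₀ O B g)
    (hΨ : Crv O Ψ) (hK : 1 ≤ K) (hB : ∀ z ∈ O, z ∈ B → sq (Ψ z) ≤ K * ‖Ψ z 0‖ ^ 2) (hs : 2 ≤ s₀)
    (he : 0 < e) (he1 : e ≤ 1) :
    ∃ H : ℂ → ℝ, Continuous H ∧ Integrable H ∧
      ∫ z, H z ≤ 4 / (s₀ - 1) * (∫ z, lam Ψ z * g z) + log (s₀ + log K) * c₀ ∧
      ∀ z, ‖grad (se e Ψ) z‖ ^ 2 / (se e Ψ z + s₀) ^ 2 * g z ≤ H z := by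
  obtain ⟨hT, hg0, hc, hgB⟩ := hg
  obtain ⟨a1, a2, a3⟩ := hQ 2 O Ψ hO hΨ
  obtain ⟨b1, b2, b3⟩ := hQ 3 O _ hO (crv_pe he hΨ)
  have hs1 : ContDiffOn ℝ 2 (se e Ψ) O := (a1.sub b1).of_le (by norm_cast)
  have hpos : ∀ z ∈ O, s₀ - 1 ≤ se e Ψ z + s₀ := fun z hz => by
    linarith [se_ge he he1 (hΨ.2 z hz)]
  have hu : ContDiffOn ℝ 2 (fun z => log (se e Ψ z + s₀)) O :=
    (hs1.add contDiffOn_const).log fun z hz => by linarith [hpos z hz]
  obtain ⟨c1, c2⟩ := mul_cont hO a2.1 hT.1.continuous hT.2.1 hT.2.2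
  obtain ⟨d1, d2⟩ := mul_cont hO (lap_cont hO hu) hT.1.continuous hT.2.1 hT.2.2
  obtain ⟨l1, l2, l3⟩ := test_lap hT
  obtain ⟨-, f2⟩ := mul_cont hO hu.continuousOn l1 l2 l3
  have hlK : 0 ≤ log K := log_nonneg hK
  have hC : 0 ≤ log (s₀ + log K) := log_nonneg (by linarith)
  refine ⟨fun z => 4 / (s₀ - 1) * (lam Ψ z * g z) - lap (fun z => log (se e Ψ z + s₀)) z * g z,
    (c1.const_mul _).sub d1, (c2.const_mul _).sub d2, ?_, fun z => ?_⟩
  · rw [integral_sub (c2.const_mul _) d2, integral_const_mul, ← hG O _ g hO hu hT, sub_eq_add_neg,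
      ← integral_neg]
    refine add_le_add_right (le_trans ?_ (mul_le_mul_of_nonneg_left hc hC)) _
    rw [← integral_const_mul]
    refine integral_mono f2.neg ((l1.integrable_of_hasCompactSupport l2).abs.const_mul _)
      fun z => ?_
    have h0 : 0 ≤ log (s₀ + log K) * |lap g z| := mul_nonneg hC (abs_nonneg _)
    by_cases hz : z ∈ O
    · have h1 : 0 ≤ log (se e Ψ z + s₀) := log_nonneg (by linarith [hpos z hz])
      by_cases hz' : z ∈ B
      · have h2 : log (se e Ψ z + s₀) ≤ log (s₀ + log K) :=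
          log_le_log (by linarith [hpos z hz])
            (by linarith [se_le he hK (hΨ.2 z hz) (hB z hz hz')])
        have h3 := mul_le_mul_of_nonneg_left (neg_le_abs (lap g z)) h1
        have h4 := mul_le_mul_of_nonneg_right h2 (abs_nonneg (lap g z))
        beta_reduce
        linarith
      · have := mul_nonneg h1 (hgB z hz')
        beta_reduce
        linarith
    · have h1 : lap g z = 0 := image_eq_zero_of_notMem_tsupport fun h => hz (l3 h)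
      simp [h1]
  · by_cases hz : z ∈ O
    · have n := hO.mem_nhds hz
      have hp := hpos z hz
      have hp' : 0 < se e Ψ z + s₀ := by linarith
      have h1 := (hL (se e Ψ) (fun z => log (sq (pe e Ψ z))) (fun s => log (s + s₀)) z
        (hs1.contDiffAt n) ((b1.of_le (by norm_cast)).contDiffAt n)
        ((contDiffAt_id.add contDiffAt_const).log hp'.ne'))
      have h2 := h1.1
      have h3 := h1.2.2.1
      simp only [se, sub_add_cancel] at h2
      rw [a3 z hz, b3 z hz] at h2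
      rw [der2, der1] at h3
      have h4 : (se e Ψ z + s₀)⁻¹ * lap (se e Ψ) z ≤ 4 / (s₀ - 1) * lam Ψ z := by
        have h5 : lap (se e Ψ) z ≤ 4 * lam Ψ z := by
          have := b2.2 z hz
          linarith
        have h6 : (se e Ψ z + s₀)⁻¹ ≤ (s₀ - 1)⁻¹ := inv_anti₀ (by linarith) hp
        have h7 := a2.2 z hz
        calc (se e Ψ z + s₀)⁻¹ * lap (se e Ψ) z ≤ (se e Ψ z + s₀)⁻¹ * (4 * lam Ψ z) :=
              mul_le_mul_of_nonneg_left h5 (inv_nonneg.2 hp'.le)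
          _ ≤ (s₀ - 1)⁻¹ * (4 * lam Ψ z) := mul_le_mul_of_nonneg_right h6 (by positivity)
          _ = _ := by ring
      beta_reduce
      rw [h3, ← mul_assoc, ← sub_mul]
      refine mul_le_mul_of_nonneg_right ?_ (hg0 z)
      rw [div_eq_inv_mul]
      linarith
    · have h1 : g z = 0 := image_eq_zero_of_notMem_tsupport fun h => hz (hT.2.2 h)
      simp [h1]

lemma norm_grad {f : ℂ → ℝ} {ρ : ℂ → ℂ} {Λ : ℝ → ℝ} {l : ℝ} (hρ : DifferentiableAt ℂ ρ z)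
    (hΛ : HasDerivAt Λ l (‖ρ z‖ ^ 2)) (h : f =ᶠ[𝓝 z] fun w => Λ (‖ρ w‖ ^ 2)) :
    ‖grad f z‖ ^ 2 = 4 * l ^ 2 * ‖ρ z‖ ^ 2 * ‖deriv ρ z‖ ^ 2 := by
  have h1 := (hΛ.comp_hasFDerivAt z
    (hρ.hasDerivAt.hasFDerivAt.restrictScalars ℝ).norm_sq).congr_of_eventuallyEq h
  rw [Complex.sq_norm, grad, Complex.normSq_mk, D, D, h1.fderiv, Complex.sq_norm, Complex.sq_norm,
    Complex.normSq_apply, Complex.normSq_apply]
  simp
  ring

lemma pw {ρ : ℂ → ℂ} (hρ : DifferentiableAt ℂ ρ z)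
    (hq : ∀ᶠ w in 𝓝 z, Ψ w 1 ≠ 0 ∧ Ψ w 0 = ρ w * Ψ w 1) (he : 0 < e) (het : e ≤ ‖ρ z‖ ^ 2)
    (hs : 2 ≤ s₀) (ht : ‖ρ z‖ ^ 2 < exp (-s₀)) :
    Pc ρ z ≤ 81 * (‖grad (se e Ψ) z‖ ^ 2 / (se e Ψ z + s₀) ^ 2) := by
  have h1 : se e Ψ =ᶠ[𝓝 z] fun w => (fun t => -log (e + t / (1 + t))) (‖ρ w‖ ^ 2) := by
    filter_upwards [hq] with w hw
    have h2 : 0 < ‖Ψ w 1‖ ^ 2 := pow_pos (norm_pos_iff.2 hw.1) 2
    rw [se, sq_pe he.le, sq_two, hw.2, norm_mul, mul_pow, ← log_div (by positivity)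
      (by positivity)]
    rw [← log_inv]
    congr 1
    generalize ‖Ψ w 1‖ ^ 2 = x at h2
    field_simp
    ring
  have h0 := h1.eq_of_nhds
  unfold Pc
  generalize hρ' : ‖ρ z‖ ^ 2 = t at *
  have tp : 0 < t := he.trans_le het
  have t1 : t < 1 := ht.trans (exp_lt_one_iff.2 (by linarith))
  have hd : HasDerivAt (fun t : ℝ => -log (e + t / (1 + t)))
      (-(((1 * (1 + t) - t * 1) / (1 + t) ^ 2) / (e + t / (1 + t)))) t :=
    ((((hasDerivAt_id' t).div ((hasDerivAt_id' t).const_add 1) (by positivity)).const_add e).log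
      (by positivity : e + t / (1 + t) ≠ 0)).neg
  rw [norm_grad hρ (hρ' ▸ hd) h1, hρ', h0]
  have hl : s₀ < -log t := by
    have := log_lt_log tp ht
    rw [log_exp] at this
    linarith
  have h3 : -log (e + t / (1 + t)) + s₀ ≤ 3 * -log t := by
    have h4 : t / 2 ≤ e + t / (1 + t) := by
      have : t / 2 ≤ t / (1 + t) := div_le_div_of_nonneg_left tp.le (by positivity) (by linarith)
      linarith
    have h5 := log_le_log (by positivity) h4
    rw [log_div tp.ne' two_ne_zero] at h5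
    linarith [log_two_lt_d9]
  have h4 : 0 < -log (e + t / (1 + t)) + s₀ := by
    have h5 : t / (1 + t) ≤ 1 := (div_le_one (by positivity)).2 (by linarith)
    have h6 := log_le_log (by positivity) (by linarith : e + t / (1 + t) ≤ 2)
    linarith [log_two_lt_d9]
  have h5 : 1 / (6 * t) ≤ ((1 * (1 + t) - t * 1) / (1 + t) ^ 2) / (e + t / (1 + t)) := by
    rw [div_div, div_le_div_iff₀ (by positivity) (by positivity)]
    have : (1 + t) ^ 2 * (e + t / (1 + t)) = (1 + t) * (e * (1 + t) + t) := by field_simp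
    rw [this]
    have h6 : e * (1 + t) ≤ t * 2 := mul_le_mul het (by linarith) (by positivity) tp.le
    have h7 : (1 + t) * (e * (1 + t) + t) ≤ 2 * (t * 2 + t) :=
      mul_le_mul (by linarith) (by linarith) (by positivity) (by norm_num)
    linarith
  rw [neg_sq]
  beta_reduce
  generalize ((1 * (1 + t) - t * 1) / (1 + t) ^ 2) / (e + t / (1 + t)) = l at h5
  generalize -log (e + t / (1 + t)) + s₀ = S at h3 h4
  have h6 : S ^ 2 ≤ 9 * log t ^ 2 := by nlinarith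
  have h7 : (1 / (6 * t)) ^ 2 ≤ l ^ 2 := pow_le_pow_left₀ (by positivity) h5 2
  have h8 : 0 < log t ^ 2 := by nlinarith
  calc ‖deriv ρ z‖ ^ 2 / (t * log t ^ 2)
      = 81 * (4 * (1 / (6 * t)) ^ 2 * t * ‖deriv ρ z‖ ^ 2 / (9 * log t ^ 2)) := by
        field_simp
        ring
    _ ≤ _ := by gcongr

lemma lam_ge (hM : MinorStmt) {ρ : ℂ → ℂ} (hρ : DifferentiableAt ℂ ρ z)
    (hΨ : DifferentiableAt ℂ Ψ z) (hq : ∀ᶠ w in 𝓝 z, Ψ w 1 ≠ 0 ∧ Ψ w 0 = ρ w * Ψ w 1) :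
    ‖deriv ρ z‖ ^ 2 / (1 + ‖ρ z‖ ^ 2) ^ 2 ≤ lam Ψ z := by
  have hd := differentiableAt_pi.1 hΨ
  obtain ⟨h1, h2⟩ := hq.self_of_nhds
  have h3 := (hM 2 (Ψ z) (deriv Ψ z) fun h => h1 (congrFun h 1)).1 0 1
  have h4 : deriv (fun w => Ψ w 0) z =
      deriv ρ z * Ψ z 1 + ρ z * deriv (fun w => Ψ w 1) z := by
    rw [← deriv_fun_mul hρ (hd 1)]
    exact EventuallyEq.deriv_eq (hq.mono fun w hw => hw.2)
  have h5 : deriv Ψ z 0 * Ψ z 1 - Ψ z 0 * deriv Ψ z 1 = deriv ρ z * Ψ z 1 ^ 2 := by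
    rw [deriv_pi hd]
    beta_reduce
    rw [h4, h2]
    ring
  rw [h5, sq_two, h2, norm_mul, norm_mul, norm_pow] at h3
  have h6 : 0 < ‖Ψ z 1‖ := norm_pos_iff.2 h1
  rw [div_le_iff₀ (by positivity), lam]
  refine le_of_mul_le_mul_right (le_trans (le_of_eq ?_) (h3.trans (le_of_eq ?_))) (pow_pos h6 4)
  · ring
  · ring

end Pool.Agent.MP_c69980_ag.H4.H62
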